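import Pool.Agent.SOR.Stmts2

/-!
# Squad SOR, row GAU: a gauge in which `s` acts by `μ`
-/

set_option autoImplicit false

noncomputable section

namespace Pool.Agent.SOR.H76

theorem ai {Y : Type} (e : Equiv.Perm Y) (y : Y) : e (e⁻¹ y) = y := e.apply_symm_apply y

theorem ia {Y : Type} (e : Equiv.Perm Y) (y : Y) : e⁻¹ (e y) = y := e.symm_apply_apply y

/-- the invariant function is constant on the orbits -/
theorem mu_zpow {Γ Y : Type} [Group Γ] {i : Γ →* Equiv.Perm Y} {s : Γ} {μ : Y → ℚ}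
    (h : ∀ y, μ (i s y) = μ y) (k : ℤ) : ∀ y : Y, μ (i (s ^ k) y) = μ y := by
  induction k using Int.induction_on with
  | zero =>
    intro y
    rw [zpow_zero, map_one, Equiv.Perm.one_apply]
  | succ k ih =>
    intro y
    rw [zpow_add_one, map_mul, Equiv.Perm.mul_apply, ih, h]
  | pred k ih =>
    intro y
    rw [zpow_sub_one, map_mul, Equiv.Perm.mul_apply, ih, ← h (i s⁻¹ y), map_inv,
      ai]

/-- GAU -/
theorem gau : GauStmt := by
  classical
  intro Γ Y _ R i ρ hρ s μ hμ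
  let S : Setoid Y := Equiv.Perm.SameCycle.setoid (i s)
  obtain ⟨rep, hrep⟩ : ∃ rep : Y → Y, rep = fun y => (Quotient.mk S y).out := ⟨_, rfl⟩
  have h1 : ∀ y, ∃ k : ℤ, i (s ^ k) (rep y) = y := by
    intro y
    have h2 : Equiv.Perm.SameCycle (i s) (rep y) y := by
      rw [hrep]
      exact Quotient.exact (s := S) (Quotient.out_eq (Quotient.mk S y))
    obtain ⟨k, hk⟩ := h2
    exact ⟨k, by rw [map_zpow]; exact hk⟩
  have h2 : ∀ y, rep (i s y) = rep y := by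
    intro y
    rw [hrep]
    have h3 : Quotient.mk S (i s y) = Quotient.mk S y := by
      apply Quotient.sound (s := S)
      exact ⟨-1, by rw [zpow_neg_one, ia]⟩
    change (Quotient.mk S (i s y)).out = (Quotient.mk S y).out
    rw [h3]
  choose K hK using h1
  refine ⟨fun y => K y * μ (rep y) - ρ (s ^ K y) (rep y), fun y => ?_⟩
  obtain ⟨y₀, hy₀⟩ : ∃ y₀, y₀ = rep y := ⟨_, rfl⟩
  obtain ⟨k, hk⟩ : ∃ k, k = K y := ⟨_, rfl⟩
  obtain ⟨k', hk'⟩ : ∃ k', k' = K (i s y) := ⟨_, rfl⟩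
  have e1 : i (s ^ k) y₀ = y := by rw [hk, hy₀]; exact hK y
  have e2 : i (s ^ k') y₀ = i s y := by
    have := hK (i s y)
    rw [h2, ← hy₀, ← hk'] at this
    exact this
  obtain ⟨m, hm⟩ : ∃ m, m = k' - (k + 1) := ⟨_, rfl⟩
  have e3 : i (s ^ m) y₀ = y₀ := by
    have h4 : s ^ m = (s ^ (k + 1))⁻¹ * s ^ k' := by
      rw [hm, ← zpow_neg, ← zpow_add]
      congr 1
      ring
    have h5 : i (s ^ (k + 1)) y₀ = i s y := by
      rw [add_comm, zpow_one_add, map_mul, Equiv.Perm.mul_apply, e1]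
    rw [h4, map_mul, Equiv.Perm.mul_apply, e2, ← h5, map_inv, ia]
  have c1 := hρ (s ^ (k + 1)) (s ^ m) y₀
  rw [e3, ← zpow_add, show k + 1 + m = k' by rw [hm]; ring] at c1
  have c2 := hρ s (s ^ k) y₀
  rw [e1, ← zpow_one_add, add_comm 1 k] at c2
  have c3 := hμ.hol y₀ m e3
  have c4 : μ y = μ y₀ := by
    rw [← e1]
    exact mu_zpow hμ.inv k y₀
  change ρ s y + (K (i s y) * μ (rep (i s y)) - ρ (s ^ K (i s y)) (rep (i s y))) -
    (K y * μ (rep y) - ρ (s ^ K y) (rep y)) - μ y ∈ R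
  rw [h2, ← hy₀, ← hk, ← hk', c4]
  have c5 := R.sub_mem (R.sub_mem (R.neg_mem c1) c2) c3
  have c6 : (m : ℚ) = k' - (k + 1) := by rw [hm]; push_cast; ring
  rw [c6] at c5
  have c7 : ρ s y + (k' * μ y₀ - ρ (s ^ k') y₀) - (k * μ y₀ - ρ (s ^ k) y₀) - μ y₀ =
      -(ρ (s ^ k') y₀ - ρ (s ^ (k + 1)) y₀ - ρ (s ^ m) y₀) -
        (ρ (s ^ (k + 1)) y₀ - ρ s y - ρ (s ^ k) y₀) -
        (ρ (s ^ m) y₀ - (k' - (k + 1)) * μ y₀) := by ring
  rw [c7]
  exact c5

end Pool.Agent.SOR.H76
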